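import Pool.Agent.V1145.SF4

/-!
MP_624632_co: the minimum Ramsey number `f n` of the graphs with exactly `n` vertices and no
isolated vertex satisfies `n + log₂ n - 3 log₂ log₂ n - 2 ≤ f n ≤ n + log₂ n + 4`; so the
conjecture `f n = n + (1 + o(1)) log₂ n` is true. The lower bound (with an unspecified constant)
is due to Burr and Erdős, the upper bound is new; the best known one was `n + C √n`.

The graph: a star forest with `k` stars with `2 ^ i + 1` leaves, `i < k - 1`, and one larger star.
Let the edges of the complete graph on `n + k + 3` vertices be coloured red and blue, and choose the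
centres of the stars of a red copy one after another, beginning with the largest star, in such a way
that Hall's condition for the sets of leaves holds with the surplus `k - j` after the choice of `j`
centres (each further centre may occupy one of the leaves). If this stops, then all vertices, except
for the `j` centres, send more than half of the edges to the set `U` of the unused vertices in blue.
Hence there is always a vertex in `U` which is joined in blue to at least half of any given set of
vertices, and the same construction in blue, with all centres in `U`, cannot stop.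
-/

namespace Pool.Agent.Results.MP_624632_co.Asymptotics

open Pool.Agent.V1145.SF Filter

/-- There is a function `f` such that, for every `n ≥ 2`, `f n` is the smallest Ramsey number of a
graph with exactly `n` vertices and no isolated vertex (`IsMinRamsey n (f n)`), and
`f n ≤ n + log₂ n + 4` for all `n ≥ 2`, `f n ≥ n + log₂ n - 3 log₂ log₂ n - 2` for all `n ≥ 16`, and
`(f n - n) / log₂ n` tends to `1`. -/
theorem result :
    ∃ f : ℕ → ℕ, (∀ n, 2 ≤ n → IsMinRamsey n (f n)) ∧
      (∀ n : ℕ, 2 ≤ n → (f n : ℝ) ≤ n + Real.logb 2 n + 4) ∧
      (∀ n : ℕ, 16 ≤ n →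
        (n : ℝ) + Real.logb 2 n - 3 * Real.logb 2 (Real.logb 2 n) - 2 ≤ f n) ∧
      Tendsto (fun n : ℕ => ((f n : ℝ) - n) / Real.logb 2 n) atTop (nhds 1) := by
  classical
  choose g hg1 hg2 using exists_min
  have hl : ∀ n : ℕ, 16 ≤ n → (n : ℝ) + Real.logb 2 n - 3 * Real.logb 2 (Real.logb 2 n) - 2 ≤
      ((fun n => if h : 2 ≤ n then g n h else 0) n : ℕ) := by
    intro n hn
    have h2 : 2 ≤ n := by omega
    simp only [h2, dif_pos]
    obtain ⟨G, hG, hr⟩ := (hg1 n h2).1
    exact lower n _ hn G hG hr.1
  have hu : ∀ n : ℕ, 2 ≤ n →
      (((fun n => if h : 2 ≤ n then g n h else 0) n : ℕ) : ℝ) ≤ n + Real.logb 2 n + 4 := by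
    intro n hn
    simp only [hn, dif_pos]
    exact hg2 n hn
  refine ⟨fun n => if h : 2 ≤ n then g n h else 0, ?_, hu, hl, asymptotics _ hl hu⟩
  intro n hn
  simp only [hn, dif_pos]
  exact hg1 n hn

end Pool.Agent.Results.MP_624632_co.Asymptotics
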